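import Mathlib

/-! Graphs glued from grids and small graphs along at most two vertices. -/

namespace Pool.Agent.MP_699d75_co

open SimpleGraph

/-- The torso of the node `t`: the graph on `bag t` in which two vertices are adjacent if they are
adjacent in `G` or lie in the bag of a common neighbouring node. -/
def torso {V T : Type} (G : SimpleGraph V) (par : T → Option T) (bag : T → Set V) (t : T) :
    SimpleGraph (bag t) :=
  SimpleGraph.fromRel fun x y =>
    G.Adj x y ∨ ∃ s, (par s = some t ∨ par t = some s) ∧ x.1 ∈ bag s ∧ y.1 ∈ bag s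

/-- A finite square grid with both sides at least two, with any set of diagonals of cells added. -/
def GridLike {W : Type} (H : SimpleGraph W) : Prop :=
  ∃ (a b : ℕ) (e : Fin (a + 2) × Fin (b + 2) ≃ W),
    (∀ p q, (pathGraph (a + 2) □ pathGraph (b + 2)).Adj p q → H.Adj (e p) (e q)) ∧
    ∀ p q, H.Adj (e p) (e q) → p.1.val ≤ q.1.val + 1 ∧ p.2.val ≤ q.2.val + 1

/-- A connected graph without cutvertex on at most `k` vertices. -/
def SmallBlock (k : ℕ) {W : Type} (H : SimpleGraph W) : Prop :=
  Finite W ∧ Nat.card W ≤ k ∧ H.Connected ∧ ∀ w, (H.induce {w}ᶜ).Preconnected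

/-- `G` has a tree-decomposition over a countable rayless rooted forest, with adhesion sets of
size one or two, whose torsos are grids with diagonals or blocks with at most `k` vertices. -/
def GridSum (k : ℕ) {V : Type} (G : SimpleGraph V) : Prop :=
  ∃ (T : Type) (par : T → Option T) (bag : T → Set V), Countable T ∧
    WellFounded (fun c t => par c = some t) ∧ WellFounded (fun t c => par c = some t) ∧
    (∀ v, ∃ t, v ∈ bag t) ∧ (∀ u v, G.Adj u v → ∃ t, u ∈ bag t ∧ v ∈ bag t) ∧
    (∀ v s t, v ∈ bag s → v ∈ bag t →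
      Relation.EqvGen (fun a b => par a = some b ∧ v ∈ bag a ∧ v ∈ bag b) s t) ∧
    (∀ c t, par c = some t → (∃ u v, bag c ∩ bag t = {u, v}) ∧ ¬ bag c ⊆ bag t) ∧
    ∀ t, GridLike (torso G par bag t) ∨ SmallBlock k (torso G par bag t)

end Pool.Agent.MP_699d75_co
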